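import Pool.Agent.Helper73.HM.St

/-! HM MODULE HY: alternative (1) implies the HOD Hypothesis. -/

namespace Pool.Agent.Helper96.HM

open Ordinal Cardinal ZFSet Order Pool.Agent.Helper73.HODC Pool.Agent.Helper73.HE
  Pool.Agent.Helper73.HM

theorem hy : StHY := by
  intro κ hκ hκ' hsing θ
  set c : Cardinal.{0} := succ (max κ θ.card) with hc
  have h0 : ℵ₀ ≤ max κ θ.card := hκ'.le.trans (le_max_left _ _)
  have hreg : c.IsRegular := isRegular_succ h0
  have hc0 : ℵ₀ < c := lt_of_le_of_lt h0 (lt_succ _)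
  have hθ : θ < c.ord := lt_ord.2 (lt_of_le_of_lt (le_max_right _ _) (lt_succ _))
  have hκc : κ.ord < c.ord := ord_lt_ord.2 (lt_of_le_of_lt (le_max_left _ _) (lt_succ _))
  have hcof : ℵ₀ < c.ord.cof := by rw [hreg.cof_ord]; exact hc0
  refine ⟨c, hreg, hθ, ?_⟩
  rintro ⟨κ₁, h1, h2, -, h3⟩
  apply h3
  refine hodSplits hreg hc0 ?_ κ₁.ord ?_ h2.le
  · refine (Stat.inter_club hcof (stat_cof_omega hcof)
      (club_Ioi (isSuccLimit_of_cof hcof) hκc)).mono ?_
    rintro a ⟨ha1, ha2⟩ -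
    have ha1' : a.cof = ℵ₀ := ha1
    have ha2' : κ.ord < a := ha2
    refine ⟨ha1', hsing a ?_ ha2'.le ?_⟩
    · rw [← one_lt_cof_iff, ha1']
      exact one_lt_aleph0
    · rw [ha1']; exact hκ'
  · rw [pos_iff_ne_zero]
    intro h
    exact h1 (ord_eq_zero.1 h)

end Pool.Agent.Helper96.HM
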